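import Mathlib
import Pool.Agent.H686R3.LatticeFO

/-!
# Sublattices of subspace lattices of skew vector spaces: not finitely axiomatizable

The lattices `L_p = Sub((ℤ/p)³) × Sub(E³)`, `E` a nonprincipal ultraproduct of the prime fields,
embed in no subspace lattice over a division ring, but a nonprincipal ultraproduct of them embeds
in a subspace lattice over a field.
-/

set_option autoImplicit false

namespace Pool.Agent.Results.MP_d4b74c_al.NotFinitelyAxiomatizable

open FirstOrder Filter Pool.Agent.H686R3

/-- `L` belongs to the class `K`: there are a division ring `D` (not necessarily commutative), a left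
`D`-vector space `V` (of any dimension) and an injective map from `L` to the lattice of all
`D`-subspaces of `V` which preserves binary joins and meets. -/
def InClass (L : Type) [Lattice L] : Prop :=
  ∃ (D : Type) (_ : DivisionRing D) (V : Type) (_ : AddCommGroup V) (_ : Module D V)
    (f : LatticeHom L (Submodule D V)), Function.Injective f

/-- No finite set of first-order sentences in the language of lattices specifies the class `K`. -/
theorem result :
    ¬ ∃ Sg : Set latLang.Sentence, Sg.Finite ∧
      ∀ (L : Type) [Lattice L], InClass L ↔ ∀ φ ∈ Sg, L ⊨ φ := by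
  rintro ⟨Sg, hfin, hSg⟩
  have h : ∀ φ ∈ Sg, ∀ᶠ i in (UU : Filter ℕ), LL i ⊨ φ := by
    intro φ hφ
    exact core φ fun M _ ⟨F, _, V, _, _, f, hf⟩ =>
      (hSg M).mp ⟨F, inferInstance, V, inferInstance, inferInstance, f, hf⟩ φ hφ
  have h2 : ∀ᶠ i in (UU : Filter ℕ), ∀ φ ∈ Sg, LL i ⊨ φ :=
    (Filter.eventually_all_finite hfin).mpr h
  obtain ⟨i, hi⟩ := h2.exists
  obtain ⟨D, hD, V, hV1, hV2, f, hf⟩ := (hSg (LL i)).mpr hi
  exact LL_not_embeds i f hf

end Pool.Agent.Results.MP_d4b74c_al.NotFinitelyAxiomatizable
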